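import Mathlib

namespace Pool.Agent.H.MP_8b3519_lc

/-- structures with universe the natural numbers -/
def Mod (L : FirstOrder.Language.{0, 0}) : Type := L.Structure ℕ

/-- the standard Borel structure: all values of symbols on tuples are measurable -/
instance mMod (L : FirstOrder.Language.{0, 0}) : MeasurableSpace (Mod L) :=
  (⨆ (n : ℕ) (f : L.Functions n) (v : Fin n → ℕ),
    MeasurableSpace.comap (fun M : Mod L => M.funMap f v) ⊤) ⊔
  ⨆ (n : ℕ) (r : L.Relations n) (v : Fin n → ℕ),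
    MeasurableSpace.comap (fun M : Mod L => M.RelMap r v) ⊤

/-- the Borel structure of the infinite symmetric group -/
instance mPerm : MeasurableSpace (Equiv.Perm ℕ) :=
  MeasurableSpace.comap (fun g : Equiv.Perm ℕ => (g : ℕ → ℕ)) inferInstance

variable {L L' : FirstOrder.Language.{0, 0}}

/-- the logic action -/
def act (g : Equiv.Perm ℕ) (M : Mod L) : Mod L :=
  ⟨fun f v => g (M.funMap f (g.symm ∘ v)), fun r v => M.RelMap r (g.symm ∘ v)⟩

/-- isomorphism -/
def Isom (x y : Mod L) : Prop := ∃ g, act g x = y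

/-- invariant Borel sets -/
def IsClass (C : Set (Mod L)) : Prop := MeasurableSet C ∧ ∀ g, ∀ x ∈ C, act g x ∈ C

/-- Borel complete classes -/
def BorelComplete (C : Set (Mod L)) : Prop :=
  IsClass C ∧ ∀ (L' : FirstOrder.Language.{0, 0}), Countable L'.Symbols → ∀ C' : Set (Mod L'), IsClass C' →
    ∃ f : C' → C, Measurable f ∧ ∀ x y, Isom x.1 y.1 ↔ Isom (f x).1 (f y).1

/-- Borel reductions between action groupoids: the functor sends the object `x` to `F₀ x` and
the arrow `(g, x)` to the arrow `(F₁ (g, x), F₀ x)` -/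
def GrpdRed (C : Set (Mod L)) (D : Set (Mod L')) : Prop :=
  ∃ (F₀ : C → D) (F₁ : Equiv.Perm ℕ × C → Equiv.Perm ℕ), Measurable F₀ ∧ Measurable F₁ ∧
    (∀ g x y, act g x.1 = y.1 → act (F₁ (g, x)) (F₀ x).1 = (F₀ y).1) ∧
    (∀ x, F₁ (1, x) = 1) ∧
    (∀ g h x y, act g x.1 = y.1 → F₁ (h * g, x) = F₁ (h, y) * F₁ (g, x)) ∧
    ∀ x y, Isom (F₀ x).1 (F₀ y).1 → Isom x.1 y.1

end Pool.Agent.H.MP_8b3519_lc
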