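import Mathlib
import Pool.Agent.H.MP_8b3519_lc.Defs
import Pool.Agent.H.MP_f7d718_lc.A

namespace Pool.Agent.H.MP_8b3519_lc

open Set Function MeasureTheory FirstOrder Pool.Agent.H.MP_f7d718_lc

variable {L : FirstOrder.Language.{0, 0}}

theorem meas_fun {n : ℕ} (f : L.Functions n) (v : Fin n → ℕ) :
    Measurable fun M : Mod L => M.funMap f v :=
  Measurable.of_comap_le (le_sup_of_le_left (le_iSup_of_le n (le_iSup_of_le f
    (le_iSup_of_le v le_rfl))))

theorem meas_rel {n : ℕ} (r : L.Relations n) (v : Fin n → ℕ) :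
    Measurable fun M : Mod L => M.RelMap r v :=
  Measurable.of_comap_le (le_sup_of_le_right (le_iSup_of_le n (le_iSup_of_le r
    (le_iSup_of_le v le_rfl))))

/-- countably many relation symbols of each arity -/
def LL : FirstOrder.Language.{0, 0} := ⟨fun _ => Empty, fun _ => ℕ⟩

instance : Countable LL.Symbols := inferInstanceAs (Countable ((Σ _ : ℕ, Empty) ⊕ Σ _ : ℕ, ℕ))

/-- a structure from relations on lists -/
def mk (R : ℕ → List ℕ → Prop) : Mod LL := ⟨fun f => f.elim, fun j v => R j (List.ofFn v)⟩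

/-- the relations of a structure -/
def rl (M : Mod LL) (j : ℕ) (l : List ℕ) : Prop := M.RelMap (n := l.length) j l.get

theorem rl_of (M : Mod LL) (j : ℕ) {n : ℕ} (v : Fin n → ℕ) :
    rl M j (List.ofFn v) ↔ M.RelMap (n := n) j v := by
  have : ∀ (l : List ℕ) (h : l.length = n), l.get = v ∘ Fin.cast h →
      (rl M j l ↔ M.RelMap (n := n) j v) := by
    intro l h e
    subst h
    rw [rl, e]
    rfl
  exact this _ List.length_ofFn (by ext; simp [Fin.cast])

theorem rl_mk (R : ℕ → List ℕ → Prop) : rl (mk R) = R := by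
  ext j l
  show R j _ ↔ _
  rw [List.ofFn_get]

theorem act_iff (g : Equiv.Perm ℕ) (M N : Mod LL) :
    act g M = N ↔ ∀ j l, rl M j l ↔ rl N j (l.map g) := by
  constructor
  · rintro rfl j l
    rw [← List.ofFn_get l, List.map_ofFn, rl_of, rl_of]
    show _ ↔ M.RelMap _ _
    rw [← comp_assoc, Equiv.symm_comp_self, id_comp]
  · intro h
    refine Language.Structure.ext (funext fun _ => funext fun f => f.elim)
      (funext fun n => funext fun j => funext fun v => propext ?_)
    show M.RelMap _ _ ↔ _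
    rw [← rl_of, h, List.map_ofFn, ← comp_assoc, Equiv.self_comp_symm, id_comp, rl_of]

theorem meas_rl (j : ℕ) (l : List ℕ) : Measurable fun M => rl M j l := meas_rel _ _

theorem meas_mk {X : Type} [MeasurableSpace X] {R : X → ℕ → List ℕ → Prop}
    (h : ∀ j l, Measurable fun x => R x j l) : Measurable fun x => mk (R x) := by
  rw [measurable_iff_comap_le, mMod]
  simp only [MeasurableSpace.comap_sup, MeasurableSpace.comap_iSup, MeasurableSpace.comap_comp,
    sup_le_iff, iSup_le_iff]
  exact ⟨fun _ f => f.elim, fun n r v => (h r _).comap_le⟩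

/-- a symbol holds of a list -/
def holds (M : Mod L) : L.Symbols → List ℕ → Prop
  | .inl ⟨_, f⟩, l => ∃ v, l = M.funMap f v :: List.ofFn v
  | .inr ⟨_, r⟩, l => ∃ v, l = List.ofFn v ∧ M.RelMap r v

theorem meas_holds (s : L.Symbols) (l : List ℕ) : Measurable fun M : Mod L => holds M s l := by
  rcases s with ⟨n, f⟩ | ⟨n, r⟩
  · exact Measurable.exists fun v =>
      (measurable_from_top (f := fun a : ℕ => l = a :: List.ofFn v)).comp (meas_fun f v)
  · exact Measurable.exists fun v => measurable_const.and (meas_rel r v)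

theorem holds_iff (g : Equiv.Perm ℕ) (M N : Mod L) :
    act g M = N ↔ ∀ s l, holds M s l ↔ holds N s (l.map g) := by
  have e : ∀ {n} (v : Fin n → ℕ), g.symm ∘ g ∘ v = v := fun v => by ext; simp
  have e' : ∀ {n} (v : Fin n → ℕ), g ∘ g.symm ∘ v = v := fun v => by ext; simp
  have i := List.map_injective_iff.2 g.injective
  constructor
  · rintro rfl (⟨n, f⟩ | ⟨n, r⟩) l
    · refine ⟨?_, fun ⟨v, h⟩ => ⟨g.symm ∘ v, i ?_⟩⟩
      · rintro ⟨v, rfl⟩
        refine ⟨g ∘ v, ?_⟩
        rw [List.map_cons, List.map_ofFn]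
        congr 1
        show _ = g _
        rw [e]
      · rw [h, List.map_cons, List.map_ofFn, e']
        rfl
    · refine ⟨?_, fun ⟨v, h, h2⟩ => ⟨g.symm ∘ v, i ?_, h2⟩⟩
      · rintro ⟨v, rfl, h⟩
        refine ⟨g ∘ v, List.map_ofFn, ?_⟩
        show M.RelMap _ _
        rwa [e]
      · rw [h, List.map_ofFn, e']
  · intro h
    refine Language.Structure.ext (funext fun n => funext fun f => funext fun v => ?_)
      (funext fun n => funext fun r => funext fun v => propext ?_)
    · obtain ⟨w, hw⟩ := (h (.inl ⟨n, f⟩) _).1 ⟨g.symm ∘ v, rfl⟩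
      rw [List.map_cons, List.map_ofFn, e', List.cons.injEq, List.ofFn_inj] at hw
      rw [← hw.2] at hw
      exact hw.1
    · constructor
      · intro hv
        obtain ⟨w, hw, h2⟩ := (h (.inr ⟨n, r⟩) _).1 ⟨g.symm ∘ v, rfl, hv⟩
        rw [List.map_ofFn, e', List.ofFn_inj] at hw
        rwa [hw]
      · intro hv
        obtain ⟨w, hw, h2⟩ := (h (.inr ⟨n, r⟩) (List.ofFn (g.symm ∘ v))).2
          ⟨v, by rw [List.map_ofFn, e'], hv⟩
        rw [List.ofFn_inj] at hw
        show M.RelMap _ _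
        rwa [hw]

/-- an enumeration -/
noncomputable def en : ℕ ≃ ℚ × ℕ := (Denumerable.eqv _).symm

/-- colours -/
noncomputable def col (n : ℕ) : ℕ := (en n).2

/-- positions -/
noncomputable def val (n : ℕ) : ℝ := (en n).1 + col n * √2

theorem val_inj : Injective val := fun m n h => by
  apply en.injective
  simp only [val, col] at h
  generalize en m = p at h
  generalize en n = q at h
  have : p.2 = q.2 := by
    by_contra hn
    have h2 : (p.2 : ℝ) - q.2 ≠ 0 := sub_ne_zero.2 (by exact_mod_cast hn)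
    refine irrational_sqrt_two ⟨(q.1 - p.1) / (p.2 - q.2), ?_⟩
    push_cast
    field_simp
    linarith
  refine Prod.ext ?_ this
  rw [this] at h
  exact_mod_cast add_right_cancel h

theorem dens {a b : ℝ} (h : a < b) (j : ℕ) : ∃ n, col n = j ∧ a < val n ∧ val n < b := by
  obtain ⟨q, h1, h2⟩ := exists_rat_btwn (sub_lt_sub_right h (j * √2))
  refine ⟨en.symm (q, j), ?_⟩
  simp only [val, col, Equiv.apply_symm_apply, true_and]
  constructor <;> linarith

theorem forth (s : Finset (ℕ × ℕ)) (f g : ℕ × ℕ → ℕ)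
    (h : ∀ p ∈ s, ∀ q ∈ s, val (f p) < val (f q) ↔ val (g p) < val (g q))
    (m : ℕ) (hm : ∀ p ∈ s, f p ≠ m) (j : ℕ) :
    ∃ l, col l = j ∧ ∀ p ∈ s, (val m < val (f p) ↔ val l < val (g p)) ∧
      (val (f p) < val m ↔ val (g p) < val l) := by
  classical
  obtain ⟨a, a1, a2⟩ := Order.exists_between_finsets
    ((s.filter fun p => val (f p) < val m).image fun p => val (g p))
    ((s.filter fun p => val m < val (f p)).image fun p => val (g p)) (by
      simp only [Finset.forall_mem_image, Finset.mem_filter]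
      exact fun p hp q hq => (h p hp.1 q hq.1).1 (hp.2.trans hq.2))
  obtain ⟨b, b1, b2⟩ := Order.exists_between_finsets {a}
    ((s.filter fun p => val m < val (f p)).image fun p => val (g p)) (by simpa using a2)
  obtain ⟨l, l1, l2, l3⟩ := dens (b1 a (by simp)) j
  simp only [Finset.forall_mem_image, Finset.mem_filter] at a1 b2
  refine ⟨l, l1, fun p hp => ?_⟩
  rcases (val_inj.ne (hm p hp)).lt_or_gt with h1 | h1
  · have := (a1 ⟨hp, h1⟩).trans l2
    exact ⟨iff_of_false h1.not_gt this.not_gt, iff_of_true h1 this⟩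
  · have := l3.trans (b2 ⟨hp, h1⟩)
    exact ⟨iff_of_true h1 this, iff_of_false h1.not_gt this.not_gt⟩

theorem lift (σ : Equiv.Perm ℕ) : ∃ π : Equiv.Perm ℕ,
    (∀ m, col (π m) = σ (col m)) ∧ ∀ m n, val m < val n ↔ val (π m) < val (π n) := by
  obtain ⟨R, r1, r2, r3⟩ := bf (fun s : Finset (ℕ × ℕ) => ∀ p ∈ s, col p.2 = σ (col p.1) ∧
    ∀ q ∈ s, val p.1 < val q.1 ↔ val p.2 < val q.2) (by simp)
    (fun s hs x => by
      by_cases h : ∃ y, (x, y) ∈ s
      · obtain ⟨y, hy⟩ := h
        exact ⟨y, by rwa [Finset.insert_eq_of_mem hy]⟩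
      · obtain ⟨l, l1, l2⟩ := forth s Prod.fst Prod.snd (fun p hp => (hs p hp).2) x
          (fun p hp e => h ⟨p.2, e ▸ hp⟩) (σ (col x))
        refine ⟨l, ?_⟩
        simp only [Finset.forall_mem_insert]
        exact ⟨⟨l1, by simp, fun p hp => (l2 p hp).1⟩,
          fun p hp => ⟨(hs p hp).1, (l2 p hp).2, (hs p hp).2⟩⟩)
    (fun s hs y => by
      by_cases h : ∃ x, (x, y) ∈ s
      · obtain ⟨x, hx⟩ := h
        exact ⟨x, by rwa [Finset.insert_eq_of_mem hx]⟩
      · obtain ⟨l, l1, l2⟩ := forth s Prod.snd Prod.fst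
          (fun p hp q hq => ((hs p hp).2 q hq).symm) y
          (fun p hp e => h ⟨p.1, e ▸ hp⟩) (σ.symm (col y))
        refine ⟨l, ?_⟩
        simp only [Finset.forall_mem_insert]
        exact ⟨⟨by simp [l1], by simp, fun p hp => (l2 p hp).1.symm⟩,
          fun p hp => ⟨(hs p hp).1, (l2 p hp).2.symm, (hs p hp).2⟩⟩)
  have k : ∀ x y x' y', R x y → R x' y' → (val x < val x' ↔ val y < val y') :=
    fun x y x' y' a b => by
      obtain ⟨s, hs, c, d⟩ := r3 _ _ _ _ a b
      exact (hs (x, y) c).2 (x', y') d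
  obtain ⟨π, hπ⟩ := equiv_of R r1 r2 fun x y x' y' a b => by
    have u := k _ _ _ _ a b
    have v := k _ _ _ _ b a
    rw [← val_inj.eq_iff (a := x), ← val_inj.eq_iff (a := y)]
    generalize val x = p, val x' = q, val y = r, val y' = t at u v ⊢
    grind
  refine ⟨π, fun m => ?_, fun m n => k _ _ _ _ (hπ m) (hπ n)⟩
  obtain ⟨s, hs, c, -⟩ := r3 _ _ _ _ (hπ m) (hπ m)
  exact (hs _ c).1

/-- structures whose first binary relation is a linear order -/
def DD : Set (Mod LL) := {M | (∀ a b c, rl M 0 [a, b] → rl M 0 [b, c] → rl M 0 [a, c]) ∧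
  (∀ a, ¬ rl M 0 [a, a]) ∧ ∀ a b, a ≠ b → rl M 0 [a, b] ∨ rl M 0 [b, a]}

theorem class_DD : IsClass DD := by
  refine ⟨measurableSet_setOfPred.2 ((Measurable.forall fun a => .forall fun b => .forall fun c =>
    (meas_rl _ _).imp ((meas_rl _ _).imp (meas_rl _ _))).and
    ((Measurable.forall fun a => (meas_rl _ _).not).and (.forall fun a => .forall fun b =>
      measurable_const.imp ((meas_rl _ _).or (meas_rl _ _))))), fun g x hx => ?_⟩
  have h := (act_iff g x _).1 rfl 0
  refine ⟨g.surjective.forall₃.2 fun a b c => ?_, g.surjective.forall.2 fun a => ?_,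
    g.surjective.forall₂.2 fun a b hn => ?_⟩
  · exact fun u v => (h [a, c]).1 (hx.1 a b c ((h _).2 u) ((h _).2 v))
  · exact fun u => hx.2.1 a ((h _).2 u)
  · exact (hx.2.2 a b (mt (congrArg g) hn)).imp (h _).1 (h _).1

theorem tf {M : Mod LL} (hM : M ∈ DD) {g : Equiv.Perm ℕ} (h : act g M = M) (h2 : g * g = 1) :
    g = 1 := Equiv.ext fun n => by
  by_contra hn
  have h3 := (act_iff g M M).1 h 0
  have e : g (g n) = n := by simpa using DFunLike.congr_fun h2 n
  rcases hM.2.2 _ _ hn with u | u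
  · exact hM.2.1 n (hM.1 _ _ _ (by simpa [e] using (h3 _).1 u) u)
  · exact hM.2.1 n (hM.1 _ _ _ u (by simpa [e] using (h3 _).1 u))

/-- the ordered cover of a structure -/
def cov (c : L.Symbols → ℕ) (M : Mod L) : ℕ → List ℕ → Prop
  | 0, l => ∃ a b, l = [a, b] ∧ val a < val b
  | 1, l => ∃ a b, l = [a, b] ∧ col a = col b
  | j + 2, l => ∃ s, c s = j ∧ holds M s (l.map col)

theorem two (g : Equiv.Perm ℕ) (P Q : ℕ → ℕ → Prop) :
    (∀ l : List ℕ, (∃ a b, l = [a, b] ∧ P a b) ↔ ∃ a b, l.map g = [a, b] ∧ Q a b) ↔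
      ∀ a b, P a b ↔ Q (g a) (g b) := by
  refine ⟨fun h a b => by simpa using h [a, b], fun h l => ?_⟩
  match l with
  | [] => simp
  | [a] => simp
  | [a, b] => simp [h]
  | a :: b :: c :: l => simp

theorem col_surj : Surjective col := fun j => (dens one_pos j).imp fun _ h => h.1

theorem bc_DD : BorelComplete DD := by
  refine ⟨class_DD, fun L hL C _ => ?_⟩
  obtain ⟨c, hc⟩ := exists_injective_nat L.Symbols
  have hD : ∀ x : Mod L, mk (cov c x) ∈ DD := fun x => by
    simp only [DD, rl_mk, cov, mem_ofPred_eq]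
    refine ⟨fun a b c => by simpa using lt_trans, by simp, fun a b h => ?_⟩
    simpa using (val_inj.ne h).lt_or_gt
  refine ⟨fun x => ⟨_, hD x.1⟩, Measurable.subtype_mk (meas_mk fun j l => ?_),
    fun x y => ⟨fun h => ?_, fun h => ?_⟩⟩
  · match j with
    | 0 => exact measurable_const
    | 1 => exact measurable_const
    | j + 2 =>
      exact Measurable.exists fun s => measurable_const.and
        ((meas_holds s _).comp measurable_subtype_coe)
  · obtain ⟨σ, h⟩ := h
    obtain ⟨π, h1, h2⟩ := lift σ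
    refine ⟨π, (act_iff _ _ _).2 fun j => ?_⟩
    simp only [rl_mk]
    match j with
    | 0 => exact (two _ _ _).2 h2
    | 1 => exact (two _ _ _).2 fun a b => by simp [h1]
    | j + 2 =>
      refine fun l => exists_congr fun s => and_congr_right fun _ => ?_
      rw [(holds_iff _ _ _).1 h, List.map_map, List.map_map, show col ∘ π = σ ∘ col from funext h1]
  · obtain ⟨π, h⟩ := h
    have h1 := (act_iff _ _ _).1 h
    simp only [rl_mk] at h1
    have h2 := (two _ _ _).1 (h1 1)
    obtain ⟨σ, hσ⟩ := equiv_of (fun i j => ∃ m, col m = i ∧ col (π m) = j)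
      (fun i => by
        obtain ⟨m, rfl⟩ := col_surj i
        exact ⟨_, m, rfl, rfl⟩)
      (fun i => by
        obtain ⟨m, rfl⟩ := col_surj i
        exact ⟨_, π.symm m, rfl, by simp⟩) (by
        rintro _ _ _ _ ⟨m, rfl, rfl⟩ ⟨l, rfl, rfl⟩
        exact h2 m l)
    have h3 : col ∘ π = σ ∘ col := funext fun m => by
      obtain ⟨l, a, b⟩ := hσ (col m)
      exact ((h2 _ _).1 a).symm.trans b
    refine ⟨σ, (holds_iff _ _ _).2 fun s l => ?_⟩
    obtain ⟨l, rfl⟩ := (List.map_surjective_iff.2 col_surj) l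
    have := h1 (c s + 2) l
    simp only [cov, hc.eq_iff, exists_eq_left] at this
    rw [this, List.map_map, List.map_map, h3]

theorem bc_univ : BorelComplete (univ : Set (Mod LL)) := by
  refine ⟨⟨.univ, fun _ _ _ => trivial⟩, fun L hL C hC => ?_⟩
  obtain ⟨f, h1, h2⟩ := bc_DD.2 L hL C hC
  exact ⟨fun x => ⟨(f x).1, trivial⟩, (measurable_subtype_coe.comp h1).subtype_mk, h2⟩

end Pool.Agent.H.MP_8b3519_lc
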