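import Mathlib
import Pool.Agent.H.MP_8b3519_lc.A
import Pool.Agent.H.MP_78c86a_lc.C

namespace Pool.Agent.H.MP_8b3519_lc

open Set Function MeasureTheory Pool.Agent.H.MP_86dbc5_an
open Finsupp (single)

theorem act_mul {L : FirstOrder.Language.{0, 0}} (g h : Equiv.Perm ℕ) (M : Mod L) :
    act (g * h) M = act g (act h M) := rfl

theorem act_one {L : FirstOrder.Language.{0, 0}} (M : Mod L) : act 1 M = M := rfl

theorem abstract (B : Set (ℕ → ℕ)) (x₀ x₁ : (ℕ → ℕ) → Mod LL) (g : (ℕ → ℕ) → Equiv.Perm ℕ)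
    (W : Set ((ℕ → ℕ) × (ℕ → ℕ))) (m₀ : Measurable x₀) (m₁ : Measurable x₁) (mg : Measurable g)
    (mW : MeasurableSet W) (h1 : ∀ y b, (y, b) ∈ W → act (g b) (x₀ y) = x₁ y)
    (h2 : ∀ y ∈ B, ∃ b, (y, b) ∈ W) (h3 : ∀ y, Isom (x₀ y) (x₁ y) → y ∈ B)
    (h4 : ∀ b, g b * g b = 1) (h5 : ∀ b b', g b * g b' = g b' * g b)
    (h : GrpdRed (univ : Set (Mod LL)) DD) : MeasurableSet B := by
  obtain ⟨F₀, F₁, f0, f1, f2, f3, f4, f5⟩ := h
  have key : ∀ y b b', (y, b) ∈ W → (y, b') ∈ W →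
      F₁ (g b, ⟨x₀ y, trivial⟩) = F₁ (g b', ⟨x₀ y, trivial⟩) := fun y b b' hb hb' => by
    have a1 : act (g b' * g b) (x₀ y) = x₀ y := by
      rw [act_mul, h1 _ _ hb, ← h1 _ _ hb', ← act_mul, h4, act_one]
    have a2 : g b' * g b * (g b' * g b) = 1 := by
      rw [mul_assoc, ← mul_assoc (g b), h5 b, mul_assoc, h4, mul_one, h4]
    have a3 : F₁ (g b' * g b, ⟨x₀ y, trivial⟩) = 1 :=
      tf (F₀ ⟨x₀ y, trivial⟩).2 (f2 _ _ _ a1) (by rw [← f4 _ _ _ _ a1, a2, f3])
    have := f4 _ (g b') ⟨x₀ y, trivial⟩ ⟨x₀ y, trivial⟩ a1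
    rwa [a3, mul_one, ← mul_assoc, h4, one_mul] at this
  have mF : ∀ n, Measurable fun p : (ℕ → ℕ) × (ℕ → ℕ) => F₁ (g p.2, ⟨x₀ p.1, trivial⟩) n :=
    fun n => (measurable_pi_apply n).comp ((comap_measurable _).comp (f1.comp
      ((mg.comp measurable_snd).prodMk (m₀.comp measurable_fst).subtype_mk)))
  have : ∀ n m, ∃ Q : Set (ℕ → ℕ), MeasurableSet Q ∧ ∀ y b, (y, b) ∈ W →
      (y ∈ Q ↔ F₁ (g b, ⟨x₀ y, trivial⟩) n = m) := fun n m => by
    obtain ⟨Q, q1, q2, q3⟩ := AnalyticSet.measurablySeparable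
      ((mW.inter (mF n (measurableSet_singleton m))).analyticSet_image measurable_fst)
      ((mW.inter (mF n (measurableSet_singleton m).compl)).analyticSet_image measurable_fst)
      (disjoint_left.2 (by
        rintro _ ⟨⟨y, b⟩, ⟨a1, a2⟩, rfl⟩ ⟨⟨y', b'⟩, ⟨a3, a4⟩, rfl⟩
        exact a4 ((DFunLike.congr_fun (key _ _ _ a3 a1) n).trans a2)))
    exact ⟨Q, q3, fun y b hb => ⟨fun hy => by_contra fun hn =>
      disjoint_left.1 q2 ⟨(y, b), ⟨hb, hn⟩, rfl⟩ hy, fun e => q1 ⟨(y, b), ⟨hb, e⟩, rfl⟩⟩⟩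
  choose Q q1 q2 using this
  have mQ : ∀ n m, Measurable fun y => y ∈ Q n m := fun n m => measurableSet_setOfPred.1 (q1 n m)
  have : B = {y | (∀ n, ∃ m, y ∈ Q n m) ∧ (∀ m, ∃ n, y ∈ Q n m) ∧
      (∀ n m n' m', y ∈ Q n m → y ∈ Q n' m' → (n = n' ↔ m = m')) ∧
      ∀ j k (v w : Fin k → ℕ), (∀ i, y ∈ Q (v i) (w i)) →
        (rl (F₀ ⟨x₀ y, trivial⟩).1 j (List.ofFn v) ↔
          rl (F₀ ⟨x₁ y, trivial⟩).1 j (List.ofFn w))} := by
    ext y
    constructor
    · intro hy
      obtain ⟨b, hb⟩ := h2 y hy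
      simp only [mem_ofPred_eq, q2 _ _ y b hb]
      refine ⟨fun n => ⟨_, rfl⟩, Equiv.surjective _, ?_, fun j k v w h => ?_⟩
      · rintro n _ n' _ rfl rfl
        simp
      · rw [(act_iff _ _ _).1 (f2 _ _ ⟨x₁ y, trivial⟩ (h1 _ _ hb)), List.map_ofFn]
        rw [show _ ∘ v = w from funext h]
    · rintro ⟨a1, a2, a3, a4⟩
      obtain ⟨e, he⟩ := MP_f7d718_lc.equiv_of _ a1 a2 a3
      refine h3 y (f5 ⟨_, trivial⟩ ⟨_, trivial⟩ ⟨e, (act_iff _ _ _).2 fun j l => ?_⟩)
      rw [← List.ofFn_get l, List.map_ofFn]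
      exact a4 _ _ _ _ fun i => he _
  rw [this]
  exact measurableSet_setOfPred.2 ((Measurable.forall fun n => .exists fun m => mQ n m).and
    ((Measurable.forall fun m => .exists fun n => mQ n m).and
    ((Measurable.forall fun n => .forall fun m => .forall fun n' => .forall fun m' =>
      (mQ _ _).imp ((mQ _ _).imp measurable_const)).and
    (Measurable.forall fun j => .forall fun k => .forall fun v => .forall fun w =>
      (Measurable.forall fun i => mQ _ _).imp
        (((meas_rl _ _).comp (measurable_subtype_coe.comp (f0.comp m₀.subtype_mk))).iff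
        ((meas_rl _ _).comp (measurable_subtype_coe.comp (f0.comp m₁.subtype_mk))))))))

/-- torsors over a tree -/
def rc (C : List ℕ → Prop) (ε : ZMod 2) : ℕ → List (ℕ × (List ℕ →₀ ZMod 2)) → Prop
  | 0, l => ∃ u v, l = [u, v] ∧ u.1 = v.1 + 1 ∧ v.2 = u.2.mapDomain List.tail
  | 1, l => l = [(0, single [] ε)]
  | n + 2, l => ∃ u, l = [u] ∧ (¬ (Denumerable.ofNat (List ℕ) n = [] ∨
      C (Denumerable.ofNat (List ℕ) n)) ∨ (Denumerable.ofNat (List ℕ) n).length ≠ u.1) ∧
      u.2 (Denumerable.ofNat (List ℕ) n) ≠ 0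

/-- translation along a branch -/
noncomputable def tr (b : ℕ → ℕ) : Equiv.Perm (ℕ × (List ℕ →₀ ZMod 2)) :=
  Equiv.prodCongrRight fun k => Equiv.addRight (single (nd b k) 1)

theorem tr_apply (b : ℕ → ℕ) (u) : tr b u = (u.1, u.2 + single (nd b u.1) 1) := rfl

theorem rc_fwd {C : List ℕ → Prop} {b : ℕ → ℕ} (hb : ∀ n, C (nd b (n + 1))) (j l) :
    rc C 0 j l ↔ rc C 1 j (l.map (tr b)) := by
  match j, l with
  | 0, [] => simp [rc]
  | 0, [u] => simp [rc]
  | 0, _ :: _ :: _ :: _ => simp [rc]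
  | 0, [(k, u), (l, v)] =>
    simp only [rc, List.map, List.cons.injEq, and_true, and_assoc, exists_and_left,
      exists_eq_left', tr_apply]
    refine and_congr_right fun h => ?_
    simp [h, Finsupp.mapDomain_add, nd]
  | 1, [] => simp [rc]
  | 1, _ :: _ :: _ => simp [rc]
  | 1, [(k, u)] =>
    simp only [rc, List.map, List.cons.injEq, and_true, tr_apply, Prod.mk.injEq]
    exact and_congr_right fun h => by simp [h, nd]
  | j + 2, [] => simp [rc]
  | j + 2, _ :: _ :: _ => simp [rc]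
  | j + 2, [(k, u)] =>
    simp only [rc, List.map, List.cons.injEq, and_true, exists_eq_left', tr_apply]
    refine and_congr_right fun h => ?_
    generalize Denumerable.ofNat (List ℕ) j = s at h ⊢
    have : nd b k ≠ s := by
      rintro rfl
      cases k <;> simp [hb, nd_length] at h
      exact h.1 rfl
    simp [this]

theorem rc_bwd {C : List ℕ → Prop} {τ : Equiv.Perm (ℕ × (List ℕ →₀ ZMod 2))}
    (h : ∀ j l, rc C 0 j l ↔ rc C 1 j (l.map τ)) :
    ∃ (t : ℕ → List ℕ) (i : ℕ → ℕ), ∀ n, t (n + 1) = i n :: t n ∧ C (t (n + 1)) := by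
  have h4 : τ (0, 0) = (0, single [] 1) := by simpa [rc] using h 1 [(0, 0)]
  have h5 : ∀ k, (τ (k + 1, 0)).1 = (τ (k, 0)).1 + 1 ∧
      (τ (k, 0)).2 = (τ (k + 1, 0)).2.mapDomain List.tail := fun k => by
    obtain ⟨u, v, e, this⟩ := (h 0 [(k + 1, 0), (k, 0)]).1 ⟨_, _, rfl, rfl, by simp⟩
    simp only [List.map, List.cons.injEq, and_true] at e
    rwa [e.1, e.2]
  have h6 : ∀ k s, (τ (k, 0)).2 s ≠ 0 → (s = [] ∨ C s) ∧ s.length = (τ (k, 0)).1 :=
    fun k s hs => by
    have := (h (Encodable.encode s + 2) [(k, 0)]).not.1 (by simp [rc])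
    simp only [rc, Denumerable.ofNat_encode] at this
    by_contra hn
    exact this ⟨_, rfl, by tauto, hs⟩
  have : ∀ k (s : {s // (τ (k, 0)).2 s ≠ 0}), ∃ t : {s // (τ (k + 1, 0)).2 s ≠ 0},
      ∃ i, t.1 = i :: s.1 ∧ C t.1 := fun k ⟨s, hs⟩ => by
    classical
    have := Finsupp.mem_support_iff.2 hs
    rw [(h5 k).2] at this
    obtain ⟨t, a, rfl⟩ := Finset.mem_image.1 (Finsupp.mapDomain_support this)
    obtain ⟨h7, h8⟩ := h6 _ _ (Finsupp.mem_support_iff.1 a)
    rw [(h5 k).1] at h8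
    obtain _ | ⟨i, t⟩ := t
    · simp at h8
    · exact ⟨⟨_, Finsupp.mem_support_iff.1 a⟩, i, rfl, by simpa using h7⟩
  choose nx i hn using this
  let s : ∀ k, {s // (τ (k, 0)).2 s ≠ 0} := fun k => Nat.rec ⟨[], by simp [h4]⟩ nx k
  exact ⟨fun k => (s k).1, fun k => i k (s k), fun k => hn k (s k)⟩

theorem nored : ¬ GrpdRed (univ : Set (Mod LL)) DD := fun hr => by
  obtain ⟨S, hS, hS2⟩ := MP_78c86a_lc.nonborel
  have c : Continuous fun (x : ℕ → Bool) n => (x n).toNat := continuous_pi fun n =>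
    (continuous_of_discreteTopology (f := Bool.toNat)).comp (continuous_apply n)
  have i : Injective fun (x : ℕ → Bool) n => (x n).toNat := fun x y h => funext fun n => by
    have : (x n).toNat = (y n).toNat := congrFun h n
    revert this
    cases x n <;> cases y n <;> simp
  obtain ⟨C, c1, c2, c3⟩ := tree (hS.image_of_continuous c)
  obtain ⟨e⟩ : Nonempty (ℕ ≃ ℕ × (List ℕ →₀ ZMod 2)) := nonempty_equiv_of_countable
  have mC : ∀ s, Measurable fun y => C y s := fun s => measurableSet_setOfPred.1 (by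
    simpa using ((c1 s).isClopen_fiber True).isOpen.measurableSet)
  have mx : ∀ ε, Measurable fun y => mk fun j l => rc (C y) ε j (l.map e) := fun ε =>
    meas_mk fun j l => match j with
      | 0 => measurable_const
      | 1 => measurable_const
      | j + 2 => Measurable.exists fun u => measurable_const.and
          (((measurable_const.or (mC _)).not.or measurable_const).and measurable_const)
  have := abstract _ _ _
      (fun b => e.symm.permCongr (tr b)) {p | ∀ n, C p.1 (nd p.2 (n + 1))} (mx 0) (mx 1) ?_ ?_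
      (fun y b hb => (act_iff _ _ _).2 fun j l => ?_) c2 (fun y ⟨σ, h⟩ => ?_) (fun b => ?_)
      (fun b b' => ?_) hr
  · exact hS2 (by simpa only [preimage_image_eq _ i] using c.measurable this)
  · refine measurable_comap_iff.2 (measurable_pi_lambda _ fun n => ?_)
    simpa [tr_apply, comp_def] using (((nd_lc (e n).1).comp
      fun s => e.symm ((e n).1, (e n).2 + single s 1)).continuous).measurable
  · refine measurableSet_setOfPred.2 (Measurable.forall fun n => ?_)
    have : (fun p : (ℕ → ℕ) × (ℕ → ℕ) => C p.1 (nd p.2 (n + 1))) =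
      fun p => ∃ s, C p.1 s ∧ nd p.2 (n + 1) = s := by simp
    rw [this]
    exact Measurable.exists fun s => ((mC s).comp measurable_fst).and
      ((measurableSet_setOfPred.1 ((nd_lc _).isClopen_fiber s).isOpen.measurableSet).comp
        measurable_snd)
  · simp only [rl_mk]
    rw [rc_fwd hb, List.map_map, List.map_map]
    exact iff_of_eq (by congr 2; ext1; simp)
  · obtain ⟨t, i, ht⟩ := rc_bwd (C := C y) (τ := e.permCongr σ) fun j l => by
      have := (act_iff _ _ _).1 h j (l.map e.symm)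
      simp only [rl_mk, List.map_map, Equiv.self_comp_symm, List.map_id] at this
      exact this
    exact c3 y t i ht
  · ext n
    simp [tr_apply, add_assoc, ← Finsupp.single_add, CharTwo.add_self_eq_zero]
  · ext n
    simp [tr_apply, add_right_comm]

end Pool.Agent.H.MP_8b3519_lc
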